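import Pool.Agent.Run7.h260.LP.Abs
import Pool.Agent.N271.GP.GPR

/-!
# Traces of functions on a variety of lower dimension: algebraic dependence
-/

set_option autoImplicit false
set_option linter.unusedSectionVars false
set_option linter.overlappingInstances false

open FF IntermediateField
open Pool.Agent.N162.GP
open Pool.Agent.Run7.h260.LP

namespace Pool.Agent.Run7.h260.FB

section

variable {g : ℕ} {E L K : Type} [Field E] [Algebra ℂ E] [Field L] [Algebra ℂ L] [Field K]
  [Algebra ℂ K] [Algebra E K] [IsScalarTower ℂ E K] [Algebra L K]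
  [IsScalarTower ℂ L K] [FiniteDimensional L K] {ι : Type} {b : ι → E}

/-- the functions on the variety which is separated are algebraic over the ratios of the traces -/
theorem alg_of_sep (hs : SepB b g) (hr : 2 * Module.finrank L K < g) {u : K}
    (hu : u ≠ 0) (hu' : u ∈ IntermediateField.adjoin L (Set.range (algebraMap E K)))
    {i₀ : ι} (hi₀ : Algebra.trace L K (algebraMap E K (b i₀) * u) ≠ 0) (e : E) :
    IsAlgebraic (IntermediateField.adjoin ℂ (Set.range fun i =>
      Algebra.trace L K (algebraMap E K (b i) * u) /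
        Algebra.trace L K (algebraMap E K (b i₀) * u))) (algebraMap E K e) := by
  have hcL : CharZero L := charZero_of_injective_algebraMap (algebraMap ℂ L).injective
  obtain ⟨N₀, hN₀⟩ : ∃ N₀ : IntermediateField ℂ L, N₀ = IntermediateField.adjoin ℂ
      (Set.range fun i => Algebra.trace L K (algebraMap E K (b i) * u) /
        Algebra.trace L K (algebraMap E K (b i₀) * u)) := ⟨_, rfl⟩
  rw [← hN₀]
  obtain ⟨Ω, iF, iA, iC, ι', θ, h1, h2⟩ := Pool.Agent.N271.GP.pair N₀
  obtain ⟨σ', τ', h3, h4, h5⟩ := abs_two hs hr hu hu' hi₀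
    (ι'.comp (IsScalarTower.toAlgHom ℂ L (AlgebraicClosure L)))
    (θ.comp (IsScalarTower.toAlgHom ℂ L (AlgebraicClosure L))) fun i => h1 _ (by
      rw [hN₀]
      exact IntermediateField.subset_adjoin ℂ _ ⟨i, rfl⟩)
  have hinj : Function.Injective ι' := ι'.toRingHom.injective
  -- the values are in the image of the algebraic closure
  have h6 : ∀ c : K, ∃ a, ι' a = σ' c := by
    intro c
    obtain ⟨p, hp0, hp⟩ := Pool.Agent.N271.GP.alg_range _ (alg_range _ _ h3 c)
    refine Pool.Agent.N271.GP.mem_range (ι' : AlgebraicClosure L →+* Ω) (σ' c)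
      (p.map (algebraMap L (AlgebraicClosure L))) ?_ ?_
    · rwa [Ne, Polynomial.map_eq_zero]
    · rw [Polynomial.eval₂_map]
      exact hp
  have h7 : ∀ c : K, ∃ a, θ a = τ' c := by
    intro c
    obtain ⟨p, hp0, hp⟩ := Pool.Agent.N271.GP.alg_range _ (alg_range _ _ h4 c)
    refine Pool.Agent.N271.GP.mem_range (θ : AlgebraicClosure L →+* Ω) (τ' c)
      (p.map (algebraMap L (AlgebraicClosure L))) ?_ ?_
    · rwa [Ne, Polynomial.map_eq_zero]
    · rw [Polynomial.eval₂_map]
      exact hp
  obtain ⟨a, ha⟩ := h6 (algebraMap E K e)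
  obtain ⟨a', ha'⟩ := h7 (algebraMap E K e)
  have h8 : IsAlgebraic N₀ a := h2 a a' (by rw [ha, ha', h5])
  -- back to `K`
  obtain ⟨p, hp0, hp⟩ := h8
  refine ⟨p, hp0, ?_⟩
  have h9 : ((σ' : K →+* Ω).comp (algebraMap N₀ K)) =
      ((ι' : AlgebraicClosure L →+* Ω).comp (algebraMap N₀ (AlgebraicClosure L))) := by
    ext c
    exact h3 c
  apply (σ' : K →+* Ω).injective
  rw [map_zero, Polynomial.aeval_def, Polynomial.hom_eval₂, h9]
  have h10 := congrArg ι' hp
  rw [map_zero, Polynomial.aeval_def] at h10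
  have h11 := Polynomial.hom_eval₂ p (algebraMap N₀ (AlgebraicClosure L))
    (ι' : AlgebraicClosure L →+* Ω) a
  have h12 : (σ' : K →+* Ω) (algebraMap E K e) = (ι' : AlgebraicClosure L →+* Ω) a := ha.symm
  rw [h12]
  exact h11.symm.trans h10

end

open scoped IntermediateField.algebraAdjoinAdjoin in
/-- independent elements of a set of generators -/
theorem indep_of_alg {L Ω : Type} [Field L] [Algebra ℂ L] [Field Ω] [Algebra ℂ Ω] [Algebra L Ω]
    [IsScalarTower ℂ L Ω] (R : Set L) {b : ℕ} {u : Fin b → Ω} (hu : AlgebraicIndependent ℂ u)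
    (halg : ∀ i, IsAlgebraic (IntermediateField.adjoin ℂ R) (u i)) :
    ∃ f : Fin b → L, (∀ i, f i ∈ R) ∧ AlgebraicIndependent ℂ f := by
  obtain ⟨N, hN⟩ : ∃ N : IntermediateField ℂ L, N = IntermediateField.adjoin ℂ R := ⟨_, rfl⟩
  rw [← hN] at halg
  -- the transcendence degree
  have h1 : (b : Cardinal) ≤ Algebra.trdeg ℂ N := by
    let A := algebraicClosure N Ω
    have hA : ∀ i, u i ∈ A := fun i => mem_algebraicClosure_iff.2 (halg i)
    have h2 : AlgebraicIndependent ℂ (fun i => (⟨u i, hA i⟩ : A)) := by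
      refine AlgebraicIndependent.of_comp (A.val.restrictScalars ℂ) ?_
      exact hu
    have h3 := h2.cardinalMk_le_trdeg
    have hAalg : Algebra.IsAlgebraic N A := inferInstance
    have h4 : Algebra.trdeg ℂ N + Algebra.trdeg N A = Algebra.trdeg ℂ A := trdeg_add_eq ℂ N
    rw [trdeg_eq_zero (R := N) (A := A), add_zero] at h4
    rw [h4]
    simpa using h3
  -- a transcendence basis
  obtain ⟨R', hR'⟩ : ∃ R' : Set N, R' = {x : N | (x : L) ∈ R} := ⟨_, rfl⟩
  have h2 : IntermediateField.adjoin ℂ R' = ⊤ := by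
    rw [eq_top_iff]
    intro x _
    have h3 : (x : L) ∈ (IntermediateField.adjoin ℂ R').map N.val := by
      rw [IntermediateField.adjoin_map]
      have h4 : (N.val '' R' : Set L) = R := by
        ext y
        constructor
        · rintro ⟨z, hz, rfl⟩
          rw [hR'] at hz
          exact hz
        · intro hy
          refine ⟨⟨y, by rw [hN]; exact IntermediateField.subset_adjoin _ _ hy⟩, ?_, rfl⟩
          rw [hR']
          exact hy
      rw [h4, ← hN]
      exact x.2
    obtain ⟨y, hy, hyx⟩ := h3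
    have h5 : y = x := Subtype.ext hyx
    rwa [← h5]
  have h3 : Algebra.IsAlgebraic (IntermediateField.adjoin ℂ R') N := by
    constructor
    intro x
    have hx : x ∈ IntermediateField.adjoin ℂ R' := by
      rw [h2]
      exact IntermediateField.mem_top
    exact isAlgebraic_algebraMap (⟨x, hx⟩ : IntermediateField.adjoin ℂ R')
  have h4 : Algebra.IsAlgebraic (Algebra.adjoin ℂ R') N :=
    (IsFractionRing.comap_isAlgebraic_iff (A := Algebra.adjoin ℂ R')
      (K := IntermediateField.adjoin ℂ R') (C := N)).2 h3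
  obtain ⟨t, htR, ht⟩ := exists_isTranscendenceBasis_subset (R := ℂ) R'
  have hcard : Cardinal.mk t = Algebra.trdeg ℂ N := ht.cardinalMk_eq_trdeg
  rw [← hcard] at h1
  have h5 : Cardinal.mk (Fin b) ≤ Cardinal.mk t := by
    rw [Cardinal.mk_fin]
    exact h1
  obtain ⟨e⟩ := (Cardinal.le_def _ _).1 h5
  refine ⟨fun i => ((e i : N) : L), fun i => ?_, ?_⟩
  · have h6 := htR (e i).2
    rw [hR'] at h6
    exact h6
  · have h6 : AlgebraicIndependent ℂ (fun i => (e i : N)) := ht.1.comp e e.injective
    exact h6.map' (f := N.val) N.val.toRingHom.injective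

end Pool.Agent.Run7.h260.FB
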