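import Pool.Agent.Run7.h260.FB.Lin
import Pool.Agent.Run7.h562.UF.Cov

/-!
# Multivalued maps: coverings by unirational varieties, the dimension of the image
-/

set_option autoImplicit false
set_option linter.unusedSectionVars false
set_option linter.overlappingInstances false

open FF Pool.Agent.W603.LV IntermediateField
open Pool.Agent.W602.GT Pool.Agent.Y172
open Pool.Agent.N145.SX (HX SepX)

namespace Pool.Agent.Run7.h260.FB

section

variable {K : Type} [Field K] [Algebra ℂ K] {E : IntermediateField ℂ K}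
  {L : Type} [Field L] [Algebra ℂ L] [Algebra L K] [IsScalarTower ℂ L K] [FiniteDimensional L K]

/-- **Coverings of a variety with a multivalued map** (from the theorem `cov_lift` of helper562). -/
theorem cov_fibre [Algebra.EssFiniteType ℂ E] {a : ℕ}
    (hE : Algebra.trdeg ℂ E = a) {z : Fin a → E} (hz : IsTranscendenceBasis ℂ z) {g : ℕ}
    (hsep : SepX z (fun _ => False) g) (hgen : IntermediateField.adjoin L (E : Set K) = ⊤)
    (hd : Module.finrank L K < g) {N r : ℕ}
    (h : ∃ (M : Type) (_ : Field M) (_ : Algebra ℂ M), Algebra.EssFiniteType ℂ M ∧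
      Algebra.trdeg ℂ M + r = N ∧ Nonempty (L →ₐ[ℂ] FractionRing (MvPolynomial (Fin r) M))) :
    ∃ (M : Type) (_ : Field M) (_ : Algebra ℂ M), Algebra.EssFiniteType ℂ M ∧
      Algebra.trdeg ℂ M + r = N ∧ ∃ ψ : K →ₐ[ℂ] FractionRing (MvPolynomial (Fin r) M),
        ∀ f ∈ E, ∃ c : M, ψ f = algebraMap M (FractionRing (MvPolynomial (Fin r) M)) c := by
  have hd' : ∀ i : Fin 1, Module.finrank (Run7.h562.UF.Im (fun _ : Fin 2 => E) L i)
      (IntermediateField.adjoin (Run7.h562.UF.Im (fun _ : Fin 2 => E) L i) (E : Set K)) < g := by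
    intro i
    refine lt_of_le_of_lt ?_ hd
    obtain ⟨M, hM⟩ : ∃ M, M = Run7.h562.UF.Im (fun _ : Fin 2 => E) L i := ⟨_, rfl⟩
    rw [← hM]
    have h5 : Module.finrank M (IntermediateField.adjoin M (E : Set K)) ≤ Module.finrank M K :=
      Submodule.finrank_le (IntermediateField.adjoin M (E : Set K)).toSubalgebra.toSubmodule
    have h6 : Module.finrank L M * Module.finrank M K = Module.finrank L K :=
      Module.finrank_mul_finrank L M K
    have h7 : 0 < Module.finrank L M := Module.finrank_pos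
    exact h5.trans (by
      rw [← h6]
      exact Nat.le_mul_of_pos_left _ h7)
  obtain ⟨M, iF, iA, h1, h2, ψ, h3⟩ := Run7.h562.UF.cov_lift (k := 1)
    (F := fun _ : Fin 2 => E) (m := fun _ => a) (fun _ => hE) (x := fun _ => z) (fun _ => hz)
    (g := fun _ => g) (fun _ => hsep) (L := L) hd' h
  have hIm : ∀ x : K, x ∈ Run7.h562.UF.Im (fun _ : Fin 2 => E) L 1 := by
    intro x
    unfold Run7.h562.UF.Im
    have h4 : {z : K | ∃ l : Fin (1 + 1), l.val < 1 ∧ z ∈ E} = (E : Set K) := by
      ext z
      constructor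
      · rintro ⟨_, _, hz⟩
        exact hz
      · intro hz
        exact ⟨0, one_pos, hz⟩
    rw [h4, hgen]
    exact IntermediateField.mem_top
  let θ : K →ₐ[ℂ] Run7.h562.UF.Im (fun _ : Fin 2 => E) L 1 :=
    { toFun := fun x => ⟨x, hIm x⟩
      map_one' := rfl
      map_mul' := fun _ _ => rfl
      map_zero' := rfl
      map_add' := fun _ _ => rfl
      commutes' := fun _ => rfl }
  refine ⟨M, iF, iA, h1, h2, ψ.comp θ, fun f hf => ?_⟩
  refine h3 (θ f) ?_
  exact (le_iSup (fun i : Fin 1 => E) 0) hf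

end

section

variable {L K : Type} [Field L] [Field K] [Algebra ℂ L] [Algebra ℂ K] [Algebra L K]
  [IsScalarTower ℂ L K] [FiniteDimensional L K]
  {E : Type} [Field E] [Algebra ℂ E] [Algebra E K] [IsScalarTower ℂ E K] {a : ℕ}

/-- the image has at least the dimension of the target variety -/
theorem imageDim_ge {z : Fin a → E} (hz : AlgebraicIndependent ℂ z) : ImageDimGe E L K a := by
  let σ : K →ₐ[L] AlgebraicClosure L := IsAlgClosed.lift
  refine ⟨fun i => σ (algebraMap E K (z i)), ?_, fun i => ?_⟩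
  · exact hz.map' (f := (σ.restrictScalars ℂ).comp (IsScalarTower.toAlgHom ℂ E K))
      ((σ.restrictScalars ℂ).comp (IsScalarTower.toAlgHom ℂ E K)).injective
  · exact IntermediateField.subset_adjoin _ _ (Set.mem_iUnion.2 ⟨σ, ⟨z i, rfl⟩⟩)

end

end Pool.Agent.Run7.h260.FB
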