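import Pool.Agent.Run7.h260.FB.Plk

/-!
# Many forms, and the main theorem on multivalued maps
-/

set_option autoImplicit false
set_option linter.unusedSectionVars false
set_option linter.overlappingInstances false

open FF Pool.Agent.W603.LV IntermediateField
open Pool.Agent.W602.GT Pool.Agent.Y172
open Pool.Agent.N145.SX (HX SepX)
open Pool.Agent.N162.GP (fKGP fTRS alg_range)
open Pool.Agent.Run7.h260.LP (SepB)

namespace Pool.Agent.Run7.h260.FB

section

variable {g : ℕ} {E L K : Type} [Field E] [Algebra ℂ E] [Field L] [Algebra ℂ L] [Field K]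
  [Algebra ℂ K] [Algebra E K] [IsScalarTower ℂ E K] [Algebra L K]
  [IsScalarTower ℂ L K] [FiniteDimensional L K] {ι : Type} {b : ι → E}

/-- many linearly independent traces -/
theorem lin_k {a n : ℕ} (ha : 1 ≤ a) (hE : Algebra.trdeg ℂ E = a) (hL : Algebra.trdeg ℂ L = n)
    {k : ℕ} (hs : SepB b g) (hr : k * Module.finrank L K < g) {u : K}
    (hu : u ≠ 0) (hu' : u ∈ IntermediateField.adjoin L (Set.range (algebraMap E K))) :
    ∃ j : Fin k → ι, LinearIndependent ℂ fun t =>
      Algebra.trace L K (algebraMap E K (b (j t)) * u) := by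
  classical
  have hcL : CharZero L := charZero_of_injective_algebraMap (algebraMap ℂ L).injective
  obtain ⟨Ω, _, _, _, σ, hσ⟩ := fKGP n k L hL
  choose S κ hS hSc hκ hsum using fun i => fTRS L E K Ω u hu hu' (σ i)
  -- the fibres are disjoint
  have hdisj : ∀ i j, i ≠ j → Disjoint (S i) (S j) := by
    intro i j hij
    rw [Finset.disjoint_left]
    intro ρ hρ hρ'
    obtain ⟨-, θ, h3, h4⟩ := hκ i ρ hρ
    obtain ⟨-, θ', h5, h6⟩ := hκ j ρ hρ'
    have h7 : ∀ b : E, ∃ z : ℂ, b = algebraMap ℂ E z := by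
      intro b
      obtain ⟨z, hz⟩ := hσ i j hij (ρ b) (by rw [← h4]; exact alg_range _ _ h3 _)
        (by rw [← h6]; exact alg_range _ _ h5 _)
      refine ⟨z, ρ.toRingHom.injective ?_⟩
      change ρ b = ρ (algebraMap ℂ E z)
      rw [hz, AlgHom.commutes]
    have h8 : Algebra.IsAlgebraic ℂ E := ⟨fun b => by
      obtain ⟨z, rfl⟩ := h7 b
      exact isAlgebraic_algebraMap z⟩
    have h9 : Algebra.trdeg ℂ E = 0 := trdeg_eq_zero_iff.2 h8
    rw [hE] at h9
    have : a = 0 := by exact_mod_cast h9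
    omega
  obtain ⟨v, hv⟩ : ∃ v : ι → Fin k → Ω,
    ∀ P i, v P i = σ i (Algebra.trace L K (algebraMap E K (b P) * u)) :=
    ⟨_, fun _ _ => rfl⟩
  have hspan : Submodule.span Ω (Set.range v) = ⊤ := by
    by_contra hne
    obtain ⟨f, hf0, hf⟩ := Submodule.exists_le_ker_of_lt_top _ (lt_top_iff_ne_top.2 hne)
    obtain ⟨a, ha⟩ : ∃ a : Fin k → Ω, ∀ i, a i = f (Pi.single i 1) := ⟨_, fun _ => rfl⟩
    have hfa : ∀ y : Fin k → Ω, f y = ∑ i, a i * y i := by
      intro y
      conv_lhs => rw [LinearMap.pi_apply_eq_sum_univ f y]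
      refine Finset.sum_congr rfl fun i _ => ?_
      rw [smul_eq_mul, mul_comm, ha]
      congr 2
      funext j
      rw [Pi.single_apply]
      simp only [eq_comm]
    obtain ⟨i₀, hi₀⟩ : ∃ i, a i ≠ 0 := by
      by_contra hcon
      push Not at hcon
      apply hf0
      ext y
      · simp [hfa, hcon]
    obtain ⟨lam, hlam⟩ : ∃ lam : (E →ₐ[ℂ] Ω) → Ω, ∀ ρ, lam ρ =
      ∑ i, if ρ ∈ S i then a i * κ i ρ else 0 := ⟨_, fun _ => rfl⟩
    have hlam' : ∀ i, ∀ ρ ∈ S i, lam ρ = a i * κ i ρ := by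
      intro i ρ hρ
      rw [hlam, Finset.sum_eq_single i]
      · rw [if_pos hρ]
      · intro j _ hj
        rw [if_neg (Finset.disjoint_left.1 (hdisj i j (Ne.symm hj)) hρ)]
      · intro h
        exact absurd (Finset.mem_univ _) h
    refine hs Ω ((Finset.univ.filter fun i => a i ≠ 0).biUnion S) lam
      ⟨(hS i₀).choose, Finset.mem_biUnion.2 ⟨i₀, Finset.mem_filter.2 ⟨Finset.mem_univ _, hi₀⟩,
        (hS i₀).choose_spec⟩⟩ (fun ρ hρ => ?_)
      (lt_of_le_of_lt Finset.card_biUnion_le (lt_of_le_of_lt (Finset.sum_le_card_nsmul _ _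
        (Module.finrank L K) fun i _ => hSc i) (lt_of_le_of_lt ?_ hr))) fun P => ?_
    · obtain ⟨i, hi, hρ'⟩ := Finset.mem_biUnion.1 hρ
      rw [hlam' i ρ hρ']
      exact mul_ne_zero (Finset.mem_filter.1 hi).2 (hκ i ρ hρ').1
    · rw [smul_eq_mul]
      refine Nat.mul_le_mul_right _ ((Finset.card_filter_le _ _).trans ?_)
      simp
    · rw [Finset.sum_biUnion fun i _ j _ hij => hdisj i j hij]
      have h3 : f (v P) = 0 := hf (Submodule.subset_span ⟨_, rfl⟩)
      rw [hfa] at h3
      rw [Finset.sum_filter]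
      refine Eq.trans (Finset.sum_congr rfl fun i _ => ?_) h3
      split_ifs with h4
      · rw [hv, hsum, Finset.mul_sum]
        refine Finset.sum_congr rfl fun ρ hρ => ?_
        rw [hlam' i ρ hρ]
        ring
      · push Not at h4
        rw [h4, zero_mul]
  obtain ⟨c, hc, hcs, hcl⟩ := exists_linearIndependent Ω (Set.range v)
  rw [hspan] at hcs
  have hB := Module.Basis.mk hcl (by rw [Subtype.range_coe, hcs])
  have e : Fin k ≃ c := (hB.indexEquiv (Pi.basisFun Ω (Fin k))).symm
  choose P hP using fun j : Fin k => hc (e j).2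
  have hli : LinearIndependent Ω fun j => v (P j) := by
    have h3 := hcl.comp e e.injective
    have h4 : (fun j => v (P j)) = Subtype.val ∘ e := funext hP
    rw [h4]
    exact h3
  refine ⟨P, ?_⟩
  rw [Fintype.linearIndependent_iff] at hli ⊢
  intro c hc j
  have h3 := hli (fun j => algebraMap ℂ Ω (c j)) (by
    funext i
    rw [Finset.sum_apply, Pi.zero_apply]
    have h6 := congrArg (σ i) hc
    rw [map_sum, map_zero] at h6
    refine Eq.trans (Finset.sum_congr rfl fun j _ => ?_) h6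
    rw [Pi.smul_apply, smul_eq_mul, hv, map_smul, Algebra.smul_def]) j
  exact (map_eq_zero (algebraMap ℂ Ω)).1 h3

end

section

variable {L K : Type} [Field L] [Field K] [Algebra ℂ L] [Algebra ℂ K] [Algebra L K]
  [IsScalarTower ℂ L K] [FiniteDimensional L K] {n : ℕ}
  {E : Type} [Field E] [Algebra ℂ E] [Algebra E K] [IsScalarTower ℂ E K] {a : ℕ}

/-- **Many forms.** -/
theorem forms_k (ha1 : 1 ≤ a) (hE : Algebra.trdeg ℂ E = a) (hn : Algebra.trdeg ℂ L = n)
    {z : Fin a → E} (hz : IsTranscendenceBasis ℂ z) {BE : Place ℂ E → Prop} {g : ℕ}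
    (hsep : SepX z BE g) {k : ℕ} (hd : k * Module.finrank L K < g)
    (hgen : IntermediateField.adjoin L (Set.range (algebraMap E K)) = ⊤) :
    ∃ v : Fin k → HX z BE,
      LinearIndependent ℂ fun t => aForm (K := K) hn z (algebraMap E K (v t : E)) := by
  classical
  have hsB : SepB (fun v : HX z BE => (v : E)) g := LP.sepB_of_sepX hsep
  obtain ⟨y, G, hy, hG⟩ := exists_crd hn
  obtain ⟨r₀, hr₀⟩ := exists_mat_ne (K := K) hn hy hG hz.1
  obtain ⟨v, hv⟩ := lin_k ha1 hE hn hsB hd hr₀ (by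
    rw [hgen]
    exact IntermediateField.mem_top)
  refine ⟨v, ?_⟩
  rw [Fintype.linearIndependent_iff] at hv ⊢
  intro c hc
  refine hv c ?_
  have h1 := congrArg (fun T : (Derivation ℂ L L) [⋀^Fin a]→ₗ[L] L => T fun i => G (r₀ i)) hc
  change (∑ i, c i • aForm (K := K) hn z (algebraMap E K (v i : E))) (fun i => G (r₀ i)) = 0 at h1
  have hsum : ∀ (S : Finset (Fin k)) (T : Fin k → (Derivation ℂ L L) [⋀^Fin a]→ₗ[L] L)
      (D : Fin a → Derivation ℂ L L), (∑ i ∈ S, T i) D = ∑ i ∈ S, T i D := by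
    intro S T D
    induction S using Finset.induction_on with
    | empty => rfl
    | insert i S hi ih =>
      rw [Finset.sum_insert hi, Finset.sum_insert hi, AlternatingMap.add_apply, ih]
  rw [hsum] at h1
  refine Eq.trans (Finset.sum_congr rfl fun i _ => ?_) h1
  rw [AlternatingMap.smul_apply, aForm_apply, mul_comm]

end

end Pool.Agent.Run7.h260.FB
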