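import Pool.Agent.Run7.h260.FB.Tra
import Pool.Agent.Run7.h260.FB.Alg
import Pool.Agent.Run7.h260.LP.Prf

/-!
# The subsheaf of the sheaf of differential forms generated by traces
-/

set_option autoImplicit false
set_option linter.unusedSectionVars false
set_option linter.overlappingInstances false

open FF Pool.Agent.W603.LV IntermediateField
open Pool.Agent.W602.GT Pool.Agent.Y172
open Pool.Agent.N145.SX (HX SepX)
open Pool.Agent.Run7.h260.LP (SepB)

namespace Pool.Agent.Run7.h260.FB

/-- linearly independent functions on a finite set have a nonzero minor -/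
theorem exists_cols {F X : Type} [Field F] [Finite X] {k : ℕ} {w : Fin k → X → F}
    (hw : LinearIndependent F w) :
    ∃ r : Fin k → X, (Matrix.of fun i j => w i (r j)).det ≠ 0 := by
  classical
  obtain ⟨v, hv⟩ : ∃ v : X → Fin k → F, ∀ x i, v x i = w i x := ⟨_, fun _ _ => rfl⟩
  have hspan : Submodule.span F (Set.range v) = ⊤ := by
    by_contra hne
    obtain ⟨f, hf0, hf⟩ := Submodule.exists_le_ker_of_lt_top _ (lt_top_iff_ne_top.2 hne)
    obtain ⟨a, ha⟩ : ∃ a : Fin k → F, ∀ i, a i = f (Pi.single i 1) := ⟨_, fun _ => rfl⟩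
    have hfa : ∀ y : Fin k → F, f y = ∑ i, a i * y i := by
      intro y
      conv_lhs => rw [LinearMap.pi_apply_eq_sum_univ f y]
      refine Finset.sum_congr rfl fun i _ => ?_
      rw [smul_eq_mul, mul_comm, ha]
      congr 2
      funext j
      rw [Pi.single_apply]
      simp only [eq_comm]
    have h1 : ∀ i, a i = 0 := by
      refine (Fintype.linearIndependent_iff.1 hw) a ?_
      funext x
      rw [Finset.sum_apply, Pi.zero_apply]
      have h2 : f (v x) = 0 := hf (Submodule.subset_span ⟨x, rfl⟩)
      rw [hfa] at h2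
      refine Eq.trans (Finset.sum_congr rfl fun i _ => ?_) h2
      rw [Pi.smul_apply, smul_eq_mul, hv]
    apply hf0
    ext y
    simp [hfa, h1]
  obtain ⟨c, hc, hcs, hcl⟩ := exists_linearIndependent F (Set.range v)
  rw [hspan] at hcs
  have hB := Module.Basis.mk hcl (by rw [Subtype.range_coe, hcs])
  have e : Fin k ≃ c := (hB.indexEquiv (Pi.basisFun F (Fin k))).symm
  choose P hP using fun j : Fin k => hc (e j).2
  have hli : LinearIndependent F fun j => v (P j) := by
    have h3 := hcl.comp e e.injective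
    have h4 : (fun j => v (P j)) = Subtype.val ∘ e := funext hP
    rw [h4]
    exact h3
  refine ⟨P, ?_⟩
  rw [← Matrix.det_transpose]
  have h5 : (Matrix.of fun i j => w i (P j) : Matrix (Fin k) (Fin k) F).transpose =
      Matrix.of fun j i => v (P j) i := by
    ext i j
    rw [Matrix.transpose_apply, Matrix.of_apply, Matrix.of_apply, hv]
  rw [h5]
  have h6 : LinearIndependent F (Matrix.of fun j i => v (P j) i : Matrix (Fin k) (Fin k) F).row :=
    hli
  exact ((Matrix.isUnit_iff_isUnit_det _).1 (Matrix.linearIndependent_rows_iff_isUnit.1 h6)).ne_zero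

section

variable {L K : Type} [Field L] [Field K] [Algebra ℂ L] [Algebra ℂ K] [Algebra L K]
  [IsScalarTower ℂ L K] [FiniteDimensional L K] {n : ℕ}
  {E : Type} [Field E] [Algebra ℂ E] [Algebra E K] [IsScalarTower ℂ E K] {a : ℕ}

/-- the value of the wedge product of the forms `η i` on the tuples `D j` of vector fields -/
noncomputable def wedge {s : ℕ} (η : Fin s → (Derivation ℂ L L) [⋀^Fin a]→ₗ[L] L)
    (D : Fin s → Fin a → Derivation ℂ L L) : L :=
  (Matrix.of fun i j => η i (D j)).det

/-- expansion of a form in a frame -/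
theorem expand_form {y : Fin n → L} (hy : IsTranscendenceBasis ℂ y) {G : Fin n → Derivation ℂ L L}
    (hG : ∀ i j, G i (y j) = if i = j then 1 else 0) (T : (Derivation ℂ L L) [⋀^Fin a]→ₗ[L] L)
    (D : Fin a → Derivation ℂ L L) :
    T D = ∑ r : Fin a → Fin n, (∏ i, D i (y (r i))) * T fun i => G (r i) := by
  classical
  have hexp : D = fun i => ∑ j, D i (y j) • G j := by
    funext i
    exact (Pool.Agent.W73.PG.PULL.expand y hy G hG (D i)).symm
  conv_lhs => rw [hexp]
  have h2 := T.toMultilinearMap.map_sum (fun (i : Fin a) (j : Fin n) => D i (y j) • G j)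
  refine Eq.trans h2 (Finset.sum_congr rfl fun r _ => ?_)
  have h3 := T.toMultilinearMap.map_smul_univ (fun i => D i (y (r i))) fun i => G (r i)
  rw [h3, smul_eq_mul]
  rfl

/-- the coordinates of the base are independent on the covering -/
theorem exists_mat_ne (hn : Algebra.trdeg ℂ L = n) {y : Fin n → L}
    (hy : IsTranscendenceBasis ℂ y) {G : Fin n → Derivation ℂ L L}
    (hG : ∀ i j, G i (y j) = if i = j then 1 else 0) {z : Fin a → E}
    (hz : AlgebraicIndependent ℂ z) :
    ∃ r : Fin a → Fin n, (mat z fun i => lft (K := K) hn (G (r i))).det ≠ 0 := by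
  classical
  by_contra hcon
  push Not at hcon
  have hyK : IsTranscendenceBasis ℂ (fun j => algebraMap L K (y j)) := hy.algebraMap_comp
  have hGK : ∀ i j, lft (K := K) hn (G i) (algebraMap L K (y j)) = if i = j then 1 else 0 :=
    fun i j => by rw [lft_apply, hG, apply_ite (algebraMap L K), map_one, map_zero]
  have hzK : AlgebraicIndependent ℂ (fun j => algebraMap E K (z j)) :=
    hz.map' (f := IsScalarTower.toAlgHom ℂ E K) (algebraMap E K).injective
  choose D hD using fun i => Pool.Agent.N383.GP.exists_dual hzK i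
  have h1 : (mat z D).det = 1 := by
    have h2 : mat z D = 1 := by
      ext i j
      unfold mat
      rw [Matrix.of_apply, hD, Matrix.one_apply]
      simp only [eq_comm]
    rw [h2, Matrix.det_one]
  have h2 : (mat z D).det = ∑ r : Fin a → Fin n, (∏ i, D i (algebraMap L K (y (r i)))) *
      (mat z fun i => lft (K := K) hn (G (r i))).det := by
    have h3 : mat z D = fun i => ∑ l, D i (algebraMap L K (y l)) •
        fun j => lft (K := K) hn (G l) (algebraMap E K (z j)) := by
      funext i j
      unfold mat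
      rw [Matrix.of_apply, Finset.sum_apply]
      conv_lhs => rw [← Pool.Agent.W73.PG.PULL.expand _ hyK _ hGK (D i)]
      rw [sum_smul_apply]
      rfl
    rw [h3]
    have h4 := (Matrix.detRowAlternating (n := Fin a) (R := K)).toMultilinearMap.map_sum
      (fun (i : Fin a) (l : Fin n) => D i (algebraMap L K (y l)) •
        fun j => lft (K := K) hn (G l) (algebraMap E K (z j)))
    refine Eq.trans h4 (Finset.sum_congr rfl fun r _ => ?_)
    have h5 := (Matrix.detRowAlternating (n := Fin a) (R := K)).toMultilinearMap.map_smul_univ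
      (fun i => D i (algebraMap L K (y (r i))))
      fun i j => lft (K := K) hn (G (r i)) (algebraMap E K (z j))
    rw [h5, smul_eq_mul]
    rfl
  rw [h1, Finset.sum_eq_zero fun r _ => by rw [hcon r, mul_zero]] at h2
  exact one_ne_zero h2

/-- the dimension of the image of the variety with the function field `L` under the multivalued map
given by `E` and `K` is at least `b` -/
def ImageDimGe (E L K : Type) [Field L] [Field K] [Algebra ℂ L] [Algebra L K] [Field E]
    [Algebra E K] (b : ℕ) : Prop :=
  ∃ u : Fin b → AlgebraicClosure L, AlgebraicIndependent ℂ u ∧ ∀ i,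
    u i ∈ IntermediateField.adjoin ℂ
      (⋃ σ : K →ₐ[L] AlgebraicClosure L, Set.range fun e : E => σ (algebraMap E K e))

/-- **The subsheaf generated by the traces.** -/
theorem plk (hn : Algebra.trdeg ℂ L = n) {z : Fin a → E}
    (hz : IsTranscendenceBasis ℂ z) {BE : Place ℂ E → Prop} {g : ℕ} (hsep : SepX z BE g)
    (hd : 2 * Module.finrank L K < g)
    (hgen : IntermediateField.adjoin L (Set.range (algebraMap E K)) = ⊤) {b : ℕ}
    (hb : ImageDimGe E L K b) :
    ∃ (s : ℕ) (v : Fin s → HX z BE) (w : Fin (b + 1) → HX z BE) (f : Fin (b + 1) → L),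
      (∀ i D, wedge (Fin.cons (aForm (K := K) hn z (algebraMap E K (w i : E)))
          fun j => aForm (K := K) hn z (algebraMap E K (v j : E))) D =
        f i * wedge (Fin.cons (aForm (K := K) hn z (algebraMap E K (w 0 : E)))
          fun j => aForm (K := K) hn z (algebraMap E K (v j : E))) D) ∧
      (∃ D, wedge (Fin.cons (aForm (K := K) hn z (algebraMap E K (w 0 : E)))
          fun j => aForm (K := K) hn z (algebraMap E K (v j : E))) D ≠ 0) ∧
      AlgebraicIndependent ℂ (fun i : Fin b => f i.succ) := by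
  classical
  have hcL : CharZero L := charZero_of_injective_algebraMap (algebraMap ℂ L).injective
  have hsB : SepB (fun v : HX z BE => (v : E)) g := LP.sepB_of_sepX hsep
  have hmem : ∀ x : K, x ∈ IntermediateField.adjoin L (Set.range (algebraMap E K)) := fun x => by
    rw [hgen]
    exact IntermediateField.mem_top
  obtain ⟨y, G, hy, hG⟩ := exists_crd hn
  obtain ⟨T, hT⟩ : ∃ T : HX z BE → (Derivation ℂ L L) [⋀^Fin a]→ₗ[L] L,
      ∀ v, T v = aForm (K := K) hn z (algebraMap E K (v : E)) := ⟨_, fun _ => rfl⟩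
  obtain ⟨φ, hφ⟩ : ∃ φ : HX z BE → (Fin a → Fin n) → L, ∀ v r, φ v r = T v fun i => G (r i) :=
    ⟨_, fun _ _ => rfl⟩
  -- a nonzero trace
  obtain ⟨r₀, hr₀⟩ := exists_mat_ne (K := K) hn hy hG hz.1
  obtain ⟨v₁, hv₁⟩ := LP.abs_ne hsB (by omega) hr₀ (hmem _)
  have hφ1 : φ v₁ ≠ 0 := by
    intro h0
    apply hv₁
    have h1 := congrFun h0 r₀
    rw [hφ, hT, aForm_apply, Pi.zero_apply] at h1
    rw [mul_comm]
    exact h1
  -- a basis of the span
  obtain ⟨c, hc, hcs, hcl⟩ := exists_linearIndependent L (Set.range φ)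
  have hfc : Finite c := hcl.finite
  have hcard : Nat.card c ≠ 0 := by
    intro h0
    have h1 : IsEmpty c := by
      rcases Nat.card_eq_zero.1 h0 with h1 | h1
      · exact h1
      · exact absurd hfc (not_finite_iff_infinite.2 h1)
    have h2 : c = ∅ := Set.isEmpty_coe_sort.1 h1
    rw [h2, Submodule.span_empty] at hcs
    apply hφ1
    have h3 : φ v₁ ∈ Submodule.span L (Set.range φ) := Submodule.subset_span ⟨v₁, rfl⟩
    rw [← hcs] at h3
    exact (Submodule.mem_bot L).1 h3
  obtain ⟨s, hs⟩ : ∃ s, Nat.card c = s + 1 := Nat.exists_eq_succ_of_ne_zero hcard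
  have e : Fin (s + 1) ≃ c := (Finite.equivFinOfCardEq hs).symm
  choose V hV using fun j : Fin (s + 1) => hc (e j).2
  have hli : LinearIndependent L fun j => φ (V j) := by
    have h3 := hcl.comp e e.injective
    have h4 : (fun j => φ (V j)) = Subtype.val ∘ e := funext hV
    rw [h4]
    exact h3
  have hspan : ∀ v, ∃ c' : Fin (s + 1) → L, ∑ j, c' j • φ (V j) = φ v := by
    intro v
    have h3 : φ v ∈ Submodule.span L (Set.range φ) := Submodule.subset_span ⟨v, rfl⟩
    rw [← hcs] at h3
    have h4 : c = Set.range fun j => φ (V j) := by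
      ext x
      constructor
      · intro hx
        exact ⟨e.symm ⟨x, hx⟩, by
          change φ (V _) = x
          rw [hV, Equiv.apply_symm_apply]⟩
      · rintro ⟨j, rfl⟩
        change φ (V j) ∈ c
        rw [hV]
        exact (e j).2
    rw [h4] at h3
    exact (Submodule.mem_span_range_iff_exists_fun L).1 h3
  choose cf hcf using hspan
  have hTc : ∀ v D, T v D = ∑ j, cf v j * T (V j) D := by
    intro v D
    rw [expand_form hy hG (T v) D]
    have h1 : ∀ j, cf v j * T (V j) D = ∑ r : Fin a → Fin n, (∏ i, D i (y (r i))) *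
        (cf v j * T (V j) fun i => G (r i)) := by
      intro j
      rw [expand_form hy hG (T (V j)) D, Finset.mul_sum]
      refine Finset.sum_congr rfl fun r _ => ?_
      ring
    simp_rw [h1]
    rw [Finset.sum_comm]
    refine Finset.sum_congr rfl fun r _ => ?_
    rw [← Finset.mul_sum]
    congr 1
    have h2 := congrFun (hcf v) r
    rw [Finset.sum_apply, hφ] at h2
    rw [← h2]
    refine Finset.sum_congr rfl fun j _ => ?_
    rw [Pi.smul_apply, hφ, smul_eq_mul]
  -- the wedge products
  have hwedge : ∀ v D, wedge (Fin.cons (T v) fun j => T (V j.succ)) D =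
      cf v 0 * wedge (Fin.cons (T (V 0)) fun j => T (V j.succ)) D := by
    intro v D
    obtain ⟨A, hA⟩ : ∃ A : Matrix (Fin (s + 1)) (Fin (s + 1)) L,
        A = Matrix.of fun i j => T (V i) (D j) := ⟨_, rfl⟩
    have h1 : (Matrix.of fun i j => (Fin.cons (T (V 0)) (fun j => T (V j.succ)) :
        Fin (s + 1) → (Derivation ℂ L L) [⋀^Fin a]→ₗ[L] L) i (D j)) = A := by
      rw [hA]
      ext i j
      rw [Matrix.of_apply, Matrix.of_apply]
      refine Fin.cases ?_ (fun i => ?_) i
      · rw [Fin.cons_zero]
      · rw [Fin.cons_succ]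
    have h2 : (Matrix.of fun i j => (Fin.cons (T v) (fun j => T (V j.succ)) :
        Fin (s + 1) → (Derivation ℂ L L) [⋀^Fin a]→ₗ[L] L) i (D j)) =
        A.updateRow 0 (∑ k, cf v k • A k) := by
      rw [hA]
      ext i j
      rw [Matrix.of_apply, Matrix.updateRow_apply]
      refine Fin.cases ?_ (fun i => ?_) i
      · rw [Fin.cons_zero, if_pos rfl, hTc, Finset.sum_apply]
        rfl
      · rw [Fin.cons_succ, if_neg (Fin.succ_ne_zero i), Matrix.of_apply]
    unfold wedge
    rw [h1, h2, Matrix.det_updateRow_sum, smul_eq_mul]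
  obtain ⟨r, hr⟩ := exists_cols hli
  obtain ⟨D₀, hD₀⟩ : ∃ D₀ : Fin (s + 1) → Fin a → Derivation ℂ L L,
    ∀ j i, D₀ j i = G (r j i) := ⟨_, fun _ _ => rfl⟩
  have hne : wedge (Fin.cons (T (V 0)) fun j => T (V j.succ)) D₀ ≠ 0 := by
    unfold wedge
    have h1 : (Matrix.of fun i j => (Fin.cons (T (V 0)) (fun j => T (V j.succ)) :
        Fin (s + 1) → (Derivation ℂ L L) [⋀^Fin a]→ₗ[L] L) i (D₀ j)) =
        Matrix.of fun i j => φ (V i) (r j) := by
      ext i j
      rw [Matrix.of_apply, Matrix.of_apply, hφ]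
      have h2 : (fun i => G (r j i)) = D₀ j := funext fun i => (hD₀ j i).symm
      rw [h2]
      refine Fin.cases ?_ (fun i => ?_) i
      · rw [Fin.cons_zero]
      · rw [Fin.cons_succ]
    rw [h1]
    exact hr
  -- the wedge products as traces
  obtain ⟨κ, hκ⟩ : ∃ κ : Fin (s + 1) → L, ∀ j, κ j = (-1) ^ (j : ℕ) *
      (Matrix.of fun (i j' : Fin s) => T (V i.succ) (D₀ (j.succAbove j'))).det := ⟨_, fun _ => rfl⟩
  obtain ⟨U, hU⟩ : ∃ U : K, U = ∑ j, algebraMap L K (κ j) *
      (mat z fun i => lft (K := K) hn (D₀ j i)).det := ⟨_, rfl⟩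
  have htr : ∀ v, wedge (Fin.cons (T v) fun j => T (V j.succ)) D₀ =
      Algebra.trace L K (algebraMap E K (v : E) * U) := by
    intro v
    unfold wedge
    rw [Matrix.det_succ_row_zero, hU, Finset.mul_sum, map_sum]
    refine Finset.sum_congr rfl fun j _ => ?_
    have h1 : algebraMap E K (v : E) * (algebraMap L K (κ j) *
        (mat z fun i => lft (K := K) hn (D₀ j i)).det) =
        κ j • ((mat z fun i => lft (K := K) hn (D₀ j i)).det * algebraMap E K (v : E)) := by
      rw [Algebra.smul_def]
      ring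
    rw [h1, map_smul, smul_eq_mul, ← aForm_apply, ← hT, hκ]
    have h2 : ((Matrix.of fun i j => (Fin.cons (T v) (fun j => T (V j.succ)) :
        Fin (s + 1) → (Derivation ℂ L L) [⋀^Fin a]→ₗ[L] L) i (D₀ j)).submatrix Fin.succ
          j.succAbove) = Matrix.of fun (i j' : Fin s) => T (V i.succ) (D₀ (j.succAbove j')) := by
      ext i j'
      rw [Matrix.submatrix_apply, Matrix.of_apply, Matrix.of_apply, Fin.cons_succ]
    rw [h2, Matrix.of_apply, Fin.cons_zero]
    ring
  have hU0 : U ≠ 0 := by
    intro h0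
    apply hne
    rw [htr, h0, mul_zero, map_zero]
  have hi₀ : Algebra.trace L K (algebraMap E K (V 0 : E) * U) ≠ 0 := by
    rw [← htr]
    exact hne
  have hrat : ∀ v : HX z BE, Algebra.trace L K (algebraMap E K (v : E) * U) /
      Algebra.trace L K (algebraMap E K (V 0 : E) * U) = cf v 0 := by
    intro v
    rw [← htr, ← htr, hwedge, mul_div_assoc, div_self hne, mul_one]
  -- algebraic dependence
  have hset : (Set.range fun i : HX z BE => Algebra.trace L K (algebraMap E K (i : E) * U) /
      Algebra.trace L K (algebraMap E K (V 0 : E) * U)) = Set.range fun v => cf v 0 := by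
    congr 1
    exact funext hrat
  have halg : ∀ e' : E, IsAlgebraic (IntermediateField.adjoin ℂ (Set.range fun v => cf v 0))
      (algebraMap E K e') := by
    intro e'
    rw [← hset]
    exact alg_of_sep hsB hd hU0 (hmem U) (i₀ := V 0) hi₀ e'
  obtain ⟨u, hu, hum⟩ := hb
  obtain ⟨N, hN⟩ : ∃ N : IntermediateField ℂ L,
    N = IntermediateField.adjoin ℂ (Set.range fun v => cf v 0) := ⟨_, rfl⟩
  rw [← hN] at halg
  have hualg : ∀ i, IsAlgebraic N (u i) := by
    intro i
    have h1 : IntermediateField.adjoin ℂ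
        (⋃ σ : K →ₐ[L] AlgebraicClosure L, Set.range fun e : E => σ (algebraMap E K e)) ≤
        (algebraicClosure N (AlgebraicClosure L)).restrictScalars ℂ := by
      rw [IntermediateField.adjoin_le_iff]
      rintro x hx
      obtain ⟨σ, hσ⟩ := Set.mem_iUnion.1 hx
      obtain ⟨e', rfl⟩ := hσ
      refine mem_algebraicClosure_iff.2 ?_
      exact (halg e').algHom (σ.restrictScalars N)
    exact mem_algebraicClosure_iff.1 (h1 (hum i))
  rw [hN] at hualg
  obtain ⟨f, hf, hfi⟩ := indep_of_alg _ hu hualg
  choose vf hvf using hf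
  refine ⟨s, fun j => V j.succ, Fin.cons (V 0) vf, Fin.cons (cf (V 0) 0) fun i => cf (vf i) 0,
    fun i D => ?_, ⟨D₀, ?_⟩, ?_⟩
  · have h1 := hwedge ((Fin.cons (V 0) vf : Fin (b + 1) → HX z BE) i) D
    rw [hT, hT] at h1
    have h2 : (fun j : Fin s => T (V j.succ)) =
        fun j => aForm (K := K) hn z (algebraMap E K (V j.succ : E)) := funext fun j => hT _
    rw [h2] at h1
    refine h1.trans ?_
    rw [Fin.cons_zero]
    congr 1
    refine Fin.cases ?_ (fun i => ?_) i
    · rw [Fin.cons_zero, Fin.cons_zero]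
    · rw [Fin.cons_succ, Fin.cons_succ]
  · rw [Fin.cons_zero, ← hT]
    have h2 : (fun j : Fin s => T (V j.succ)) =
        fun j => aForm (K := K) hn z (algebraMap E K (V j.succ : E)) := funext fun j => hT _
    rw [← h2]
    exact hne
  · simp only [Fin.cons_succ]
    have h3 : (fun i => cf (vf i) 0) = f := funext hvf
    rw [h3]
    exact hfi

end

end Pool.Agent.Run7.h260.FB
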