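import Pool.Agent.Run7.h260.LP.Plu
import Pool.Agent.N145.SX.Stm
import Pool.Agent.N123.SX.PULL

/-!
# Traces of differential forms of lower degree

Let `E`, `L` be subfields of `K`, `K` finite over `L`. The traces on `L` of the pull-backs to `K` of
regular (logarithmic) forms of top degree on `E` are regular (logarithmic).
-/

set_option autoImplicit false
set_option linter.unusedSectionVars false
set_option linter.overlappingInstances false

open FF Pool.Agent.W603.LV IntermediateField
open Pool.Agent.W602.GT Pool.Agent.Y172
open Pool.Agent.N145.SX (HX)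

namespace Pool.Agent.Run7.h260.FB

section

variable {L K : Type} [Field L] [Field K] [Algebra ℂ L] [Algebra ℂ K] [Algebra L K]
  [IsScalarTower ℂ L K] [FiniteDimensional L K] {n : ℕ}

/-- the extension of a derivation -/
noncomputable def lft (hn : Algebra.trdeg ℂ L = n) (D : Derivation ℂ L L) : Derivation ℂ K K :=
  (exists_lift (L := K) hn D).choose

theorem lft_apply (hn : Algebra.trdeg ℂ L = n) (D : Derivation ℂ L L) (f : L) :
    lft (K := K) hn D (algebraMap L K f) = algebraMap L K (D f) :=
  (exists_lift (L := K) hn D).choose_spec f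

theorem lft_unique (hn : Algebra.trdeg ℂ L = n) {D : Derivation ℂ L L} {D' : Derivation ℂ K K}
    (h : ∀ f, D' (algebraMap L K f) = algebraMap L K (D f)) : lft hn D = D' := by
  obtain ⟨y, -, hy, -⟩ := exists_crd hn
  have h1 : IsTranscendenceBasis ℂ (fun i => algebraMap L K (y i)) := hy.algebraMap_comp
  refine der_ext _ h1 fun i => ?_
  rw [lft_apply, h]

theorem lft_add (hn : Algebra.trdeg ℂ L = n) (D D' : Derivation ℂ L L) :
    lft (K := K) hn (D + D') = lft hn D + lft hn D' :=
  lft_unique hn fun f => by
    rw [Derivation.add_apply, lft_apply, lft_apply, Derivation.add_apply, map_add]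

theorem lft_smul (hn : Algebra.trdeg ℂ L = n) (c : L) (D : Derivation ℂ L L) :
    lft (K := K) hn (c • D) = algebraMap L K c • lft hn D :=
  lft_unique hn fun f => by
    rw [Derivation.smul_apply, lft_apply, Derivation.smul_apply, smul_eq_mul, smul_eq_mul, map_mul]

variable {E : Type} [Field E] [Algebra ℂ E] [Algebra E K] [IsScalarTower ℂ E K] {a : ℕ}

/-- the matrix of the values of the derivations on the coordinates -/
noncomputable def mat (z : Fin a → E) (D : Fin a → Derivation ℂ K K) : Matrix (Fin a) (Fin a) K :=
  Matrix.of fun i j => D i (algebraMap E K (z j))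

theorem mat_update (z : Fin a → E) (D : Fin a → Derivation ℂ K K) (i : Fin a)
    (D' : Derivation ℂ K K) : mat z (Function.update D i D') =
      (mat z D).updateRow i fun j => D' (algebraMap E K (z j)) := by
  classical
  ext i' j
  unfold mat
  rw [Matrix.of_apply, Matrix.updateRow_apply]
  by_cases h : i' = i
  · rw [h, Function.update_self, if_pos rfl]
  · rw [Function.update_of_ne h, if_neg h, Matrix.of_apply]

theorem lft_update (hn : Algebra.trdeg ℂ L = n) (D : Fin a → Derivation ℂ L L) (i : Fin a)
    (D' : Derivation ℂ L L) : (fun i' => lft (K := K) hn (Function.update D i D' i')) =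
      Function.update (fun i' => lft hn (D i')) i (lft hn D') := by
  funext i'
  by_cases h : i' = i
  · rw [h, Function.update_self, Function.update_self]
  · rw [Function.update_of_ne h, Function.update_of_ne h]

/-- The trace on `L` of the pull-back to `K` of the form `v dz 1 ∧ ... ∧ dz a` on `E`. -/
noncomputable def aForm (hn : Algebra.trdeg ℂ L = n) (z : Fin a → E) (v : K) :
    (Derivation ℂ L L) [⋀^Fin a]→ₗ[L] L where
  toFun D := Algebra.trace L K ((mat z fun i => lft (K := K) hn (D i)).det * v)
  map_update_add' := by
    intro inst D i x y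
    have e1 : inst = instDecidableEqFin a := Subsingleton.elim _ _
    subst e1
    rw [lft_update, lft_update, lft_update, mat_update, mat_update, mat_update, lft_add]
    have h1 : (fun j => (lft (K := K) hn x + lft (K := K) hn y : Derivation ℂ K K)
        (algebraMap E K (z j))) =
        (fun j => lft (K := K) hn x (algebraMap E K (z j))) +
          fun j => lft (K := K) hn y (algebraMap E K (z j)) := by
      funext j
      rw [Derivation.add_apply]
      rfl
    rw [h1, Matrix.det_updateRow_add, add_mul, map_add]
  map_update_smul' := by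
    intro inst D i c x
    have e1 : inst = instDecidableEqFin a := Subsingleton.elim _ _
    subst e1
    rw [lft_update, lft_update, mat_update, mat_update, lft_smul]
    have h1 : (fun j => (algebraMap L K c • lft (K := K) hn x) (algebraMap E K (z j))) =
        algebraMap L K c • fun j => lft (K := K) hn x (algebraMap E K (z j)) := by
      funext j
      rw [Derivation.smul_apply]
      rfl
    rw [h1, Matrix.det_updateRow_smul, mul_assoc, ← Algebra.smul_def, map_smul]
  map_eq_zero_of_eq' := by
    intro D i j hij hne
    have h1 : (mat z fun i => lft (K := K) hn (D i)).det = 0 := by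
      refine Matrix.det_zero_of_row_eq hne ?_
      funext l
      unfold mat
      rw [Matrix.of_apply, Matrix.of_apply]
      change lft hn (D i) _ = lft hn (D j) _
      rw [hij]
    rw [h1, zero_mul, map_zero]

theorem aForm_apply (hn : Algebra.trdeg ℂ L = n) (z : Fin a → E) (v : K)
    (D : Fin a → Derivation ℂ L L) :
    aForm hn z v D = Algebra.trace L K ((mat z fun i => lft (K := K) hn (D i)).det * v) := rfl

end

section

variable {L K : Type} [Field L] [Field K] [Algebra ℂ L] [Algebra ℂ K] [Algebra L K]
  [IsScalarTower ℂ L K] [FiniteDimensional L K] [Algebra.EssFiniteType ℂ L]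
  [Algebra.EssFiniteType ℂ K] {n : ℕ}

/-- the lift of the vector field transversal to a prime divisor -/
theorem lift_ge (hn : Algebra.trdeg ℂ L = n) {P : Place ℂ L} {Q : Place ℂ K} {e : ℕ}
    (h : Over Q P e) (hQ : Divisorial n Q) {y : Fin n → L} {G : Fin n → Derivation ℂ L L}
    {i0 : Fin n} (hl : Loc P y G i0) {f : K} (hf : Q.Reg f) :
    Ge Q (1 - e) (lft (K := K) hn (G i0) f) := by
  classical
  have hnK : Algebra.trdeg ℂ K = n := trdeg_up (K := L) hn
  obtain ⟨w, hw⟩ : ∃ w : Fin n → K, ∀ j, w j = if j = i0 then f else algebraMap L K (y j) :=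
    ⟨_, fun _ => rfl⟩
  have hwr : ∀ j, Q.Reg (w j) := by
    intro j
    rw [hw]
    split_ifs
    · exact hf
    · exact h.reg.2 (hl.reg j)
  have h1 := down_ge hnK h hQ hl (E' := fun i => lft (K := K) hn (G i))
    (fun i f => lft_apply hn (G i) f) (LP.plForm_pluri 1 w (1 : K)) (c := 0) fun D hD => by
      have h2 : Ge Q 0 (LP.plForm 1 w (1 : K) D) := by
        unfold LP.plForm
        rw [pow_one, mul_one]
        exact Pool.Agent.W603.LV.ge_det Q _ _ (fun _ _ => 0) (fun a b => hD a _ (hwr b))
          fun σ => by simp
      rcases h2 with h2 | h2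
      · exact Or.inl h2
      · exact Or.inr (by exact_mod_cast h2)
  have h3 : LP.plForm 1 w (1 : K) (fun i => lft (K := K) hn (G i)) =
      lft (K := K) hn (G i0) f := by
    unfold LP.plForm
    rw [pow_one, mul_one]
    have h4 : (Matrix.of fun i j => lft (K := K) hn (G i) (w j) : Matrix (Fin n) (Fin n) K) =
        (1 : Matrix (Fin n) (Fin n) K).updateCol i0 fun i => lft (K := K) hn (G i) f := by
      ext i j
      rw [Matrix.of_apply, Matrix.updateCol_apply, hw]
      by_cases hj : j = i0
      · rw [if_pos hj, if_pos hj]
      · rw [if_neg hj, if_neg hj, lft_apply, hl.dual, Matrix.one_apply, apply_ite (algebraMap L K),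
          map_one, map_zero]
    rw [h4, ← Matrix.cramer_apply, Matrix.cramer_one]
    rfl
  rw [h3] at h1
  rcases h1 with h1 | h1
  · exact Or.inl h1
  · right
    have h5 : (((1 : ℤ) - e : ℤ) : ℝ) ≤ (Q.ord (lft (K := K) hn (G i0) f) : ℝ) := by
      push_cast at h1 ⊢
      linarith
    exact_mod_cast h5

variable {E : Type} [Field E] [Algebra ℂ E] [Algebra.EssFiniteType ℂ E] [Algebra E K]
  [IsScalarTower ℂ E K] {a : ℕ}

/-- **Traces of forms of lower degree are regular.** -/
theorem aForm_reg (hn : Algebra.trdeg ℂ L = n) (ha : Algebra.trdeg ℂ E = a) {z : Fin a → E}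
    (hz : IsTranscendenceBasis ℂ z) {BE : Place ℂ E → Prop} {v : E} (hv : v ∈ HX z BE)
    {P : Place ℂ L} (hP : Divisorial n P)
    (hB : ∀ (Q : Place ℂ K) (R : Place ℂ E) (e e' : ℕ), Over Q P e → Over Q R e' → ¬ BE R) :
    RegAt P (aForm (K := K) hn z (algebraMap E K v)) := by
  classical
  have hnK : Algebra.trdeg ℂ K = n := trdeg_up (K := L) hn
  obtain ⟨y, G, i0, hl⟩ := exists_loc hn hP
  -- the values on the frame
  have hval : ∀ r : Fin a → Fin n,
      P.Reg (aForm (K := K) hn z (algebraMap E K v) fun i => G (r i)) := by
    intro r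
    by_cases hr : Function.Injective r
    · rw [aForm_apply]
      refine Pool.Agent.Y692.NT.trace_reg P _ fun Q e hQ => ?_
      have hQd : Divisorial n Q := divisorial_up hQ hP
      have hpull : ∀ D : Fin a → Derivation ℂ K K, (∀ i, DerReg Q (D i)) →
          Q.Reg ((mat z D).det * algebraMap E K v) := by
        intro D hD
        refine Pool.Agent.N123.SX.PULL E K a n ha hnK z hz BE v hv Q hQd D (Or.inr ⟨?_, hD⟩)
        rintro ⟨R, e', hR, hR'⟩
        exact hB Q R e e' hQ hR' hR
      have hlog : ∀ i, i ≠ i0 → DerReg Q (lft (K := K) hn (G i)) := by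
        intro i hi
        have h1 : DerLog P (G i) := by
          have h2 := hl.log i
          unfold lc at h2
          rwa [if_neg hi, one_smul] at h2
        exact Pool.Agent.TH466.QG.derReg_of_log (lift_log hQ h1 fun f => lft_apply hn (G i) f)
      by_cases hi : ∃ i1, r i1 = i0
      · obtain ⟨i1, hi1⟩ := hi
        obtain ⟨π, hπ⟩ : ∃ π, π = unif Q := ⟨_, rfl⟩
        have hπ1 : Q.ord π = 1 := by
          rw [hπ]
          exact ord_unif Q
        have hπ0 : π ≠ 0 := by
          rintro h0
          rw [h0, Q.ord_zero] at hπ1
          exact absurd hπ1 (by norm_num)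
        have he : 1 ≤ e := hQ.1
        have h1 := hpull (Function.update (fun i => lft (K := K) hn (G (r i))) i1
          (π ^ (e - 1) • lft (K := K) hn (G i0))) fun i => by
            by_cases hii : i = i1
            · rw [hii, Function.update_self]
              intro f hf
              have h2 := lift_ge hn hQ hQd hl hf
              have h3 : Ge Q (e - 1 : ℕ) (π ^ (e - 1)) := Or.inr (by
                rw [Q.ord_pow, hπ1, mul_one])
              have h4 := h3.mul h2
              have h5 : ((e - 1 : ℕ) : ℤ) + (1 - e) = 0 := by
                push_cast [he]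
                ring
              rw [h5] at h4
              exact h4
            · rw [Function.update_of_ne hii]
              refine hlog _ fun h => hii (hr ?_)
              rw [h, hi1]
        rw [mat_update] at h1
        have h2 : (fun j => (π ^ (e - 1) • lft (K := K) hn (G i0)) (algebraMap E K (z j))) =
            π ^ (e - 1) • fun j => lft (K := K) hn (G (r i1)) (algebraMap E K (z j)) := by
          funext j
          rw [Derivation.smul_apply, hi1]
          rfl
        rw [h2, Matrix.det_updateRow_smul, ← mat_update, Function.update_eq_self] at h1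
        have h3 : Ge Q (1 - e) ((π ^ (e - 1))⁻¹) := Or.inr (by
          rw [Q.ord_inv, Q.ord_pow, hπ1, mul_one]
          push_cast [he]
          linarith)
        have h4 : Ge Q 0 (π ^ (e - 1) * (mat z fun i => lft (K := K) hn (G (r i))).det *
          algebraMap E K v) := h1
        have h5 := h3.mul h4
        rw [add_zero, mul_assoc, ← mul_assoc, inv_mul_cancel₀ (pow_ne_zero _ hπ0), one_mul] at h5
        exact h5
      · have h1 : Ge Q 0 ((mat z fun i => lft (K := K) hn (G (r i))).det * algebraMap E K v) :=
          hpull _ fun i => hlog _ fun h => hi ⟨i, h⟩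
        refine h1.mono ?_
        have := hQ.1
        omega
    · have h1 : aForm (K := K) hn z (algebraMap E K v) (fun i => G (r i)) = 0 := by
        unfold Function.Injective at hr
        push Not at hr
        obtain ⟨i, j, hij, hne⟩ := hr
        exact AlternatingMap.map_eq_zero_of_eq _ _ (by rw [hij]) hne
      rw [h1]
      exact P.reg_zero
  -- expansion
  intro D hD
  have hexp : D = fun i => ∑ j, D i (y j) • G j := by
    funext i
    exact (Pool.Agent.W73.PG.PULL.expand y hl.bas G hl.dual (D i)).symm
  have h1 : aForm (K := K) hn z (algebraMap E K v) D =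
      ∑ r : Fin a → Fin n, (∏ i, D i (y (r i))) *
        aForm (K := K) hn z (algebraMap E K v) fun i => G (r i) := by
    conv_lhs => rw [hexp]
    have h2 := (aForm (K := K) hn z (algebraMap E K v)).toMultilinearMap.map_sum
      (fun (i : Fin a) (j : Fin n) => D i (y j) • G j)
    refine Eq.trans h2 (Finset.sum_congr rfl fun r _ => ?_)
    have h3 := (aForm (K := K) hn z (algebraMap E K v)).toMultilinearMap.map_smul_univ
      (fun i => D i (y (r i))) fun i => G (r i)
    rw [h3, smul_eq_mul]
    rfl
  rw [h1]
  refine Finset.sum_induction _ P.Reg (fun _ _ => P.reg_add) P.reg_zero fun r _ => ?_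
  refine P.reg_mul ?_ (hval r)
  refine Finset.prod_induction _ P.Reg (fun _ _ => P.reg_mul) P.reg_one fun i _ => ?_
  exact hD i _ (hl.reg _)

/-- **Traces of forms of lower degree are logarithmic.** -/
theorem aForm_log (hn : Algebra.trdeg ℂ L = n) (ha : Algebra.trdeg ℂ E = a) {z : Fin a → E}
    (hz : IsTranscendenceBasis ℂ z) {BE : Place ℂ E → Prop} {v : E} (hv : v ∈ HX z BE)
    {P : Place ℂ L} (hP : Divisorial n P) :
    LogAt P (aForm (K := K) hn z (algebraMap E K v)) := by
  have hnK : Algebra.trdeg ℂ K = n := trdeg_up (K := L) hn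
  intro D hD
  rw [aForm_apply]
  refine Pool.Agent.Y692.NT.trace_reg P _ fun Q e hQ => ?_
  have hQd : Divisorial n Q := divisorial_up hQ hP
  have h1 : Ge Q 0 ((mat z fun i => lft (K := K) hn (D i)).det * algebraMap E K v) :=
    Pool.Agent.N123.SX.PULL E K a n ha hnK z hz BE v hv Q hQd _
      (Or.inl fun i => lift_log hQ (hD i) fun f => lft_apply hn (D i) f)
  refine h1.mono ?_
  have := hQ.1
  omega

end

end Pool.Agent.Run7.h260.FB
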